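import Pool.Agent.R3M.Stmts

/-!
# R3M, row LSP
-/

set_option autoImplicit false

namespace Pool.Agent.R3M.H29

theorem lsp : LspStmt := by
  intro α _ M I e f g he hf hg h1 h2 h3
  have hef : e ∉ I.erase f := fun h => he (Finset.mem_of_mem_erase h)
  have hc1 : (insert e (I.erase f)).card = I.card := by
    rw [Finset.card_insert_of_notMem hef, Finset.card_erase_add_one hf]
  have hc2 : (insert g I).card = I.card + 1 := Finset.card_insert_of_notMem hg
  obtain ⟨x, hx, hx', hx''⟩ := M.aug h2 h3 (by omega)
  rcases Finset.mem_insert.1 hx with rfl | hxI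
  · exact hx''
  · exfalso
    have hxf : x = f := by
      by_contra hne
      exact hx' (Finset.mem_insert_of_mem (Finset.mem_erase.2 ⟨hne, hxI⟩))
    subst hxf
    apply h1
    rw [Finset.insert_comm, Finset.insert_erase hxI] at hx''
    exact hx''

end Pool.Agent.R3M.H29
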